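import Mathlib
import Pool.Agent.V1146.SQ.Main
import Pool.Agent.V1146.SQ.Iso
import Pool.Agent.V1146.SQ.Right
set_option autoImplicit false
noncomputable section
open scoped BigOperators

/-!
# MP_a03157_co : which triangles are square-only

The square-only triangles are determined outside an explicit class of triangles with algebraic
ratios of sides. Tile data, corner patterns and characters of the directions come from the starting
library (Helper549.Tri). New: the treatment of a non-square number of pieces. If the pieces are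
similar to `T`, the conjugate eigenvector argument over `ℚ(√N)` (and, for split corners, a real
character of the direction group) leaves only the right triangles with legs in rational ratio. If
they are not similar to `T`, then `T` lies in one of four one-parameter families, and in each of
them the side equations are polynomial identities in the parameter when it is transcendental, which
is impossible. The converse uses the dissections of isosceles triangles into `2` pieces and of
right triangles with legs `p : q` into `p ^ 2 + q ^ 2` pieces.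
-/

namespace Pool.Agent.Results.MP_a03157_co.ScaleneTranscendental
open Pool.Agent.Helper549.Tri
open Pool.Agent.V1146.SQ.Trans
open Pool.Agent.V1146.SQ.Enum

/-- angle of `T` at vertex `i` -/
abbrev ang (T : Fin 3 → EuclideanSpace ℝ (Fin 2)) (i : Fin 3) : ℝ :=
  Pool.Agent.Helper549.Tri.angle T i

theorem ne_of (T : Fin 3 → EuclideanSpace ℝ (Fin 2)) (hT : AffineIndependent ℝ T) {i j : Fin 3}
    (hij : i ≠ j) : T i ≠ T j := fun h => hij (hT.injective h)

theorem side_pos (T : Fin 3 → EuclideanSpace ℝ (Fin 2)) (hT : AffineIndependent ℝ T) (i : Fin 3) :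
    0 < side T i := by
  unfold side
  rw [dist_pos]
  apply ne_of T hT
  revert i
  decide

theorem law (T : Fin 3 → EuclideanSpace ℝ (Fin 2)) (i : Fin 3) :
    side T i * Real.sin (ang T (i + 1)) = side T (i + 1) * Real.sin (ang T i) := by
  have h := EuclideanGeometry.sin_angle_mul_dist_eq_sin_angle_mul_dist (T i) (T (i + 1)) (T (i + 2))
  unfold ang side Pool.Agent.Helper549.Tri.angle
  have e1 : ∀ i : Fin 3, i + 1 + 1 = i + 2 := by decide
  have e2 : ∀ i : Fin 3, i + 1 + 2 = i := by decide
  rw [e1, e2]
  rw [EuclideanGeometry.angle_comm (T (i + 2)) (T (i + 1)) (T i),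
    EuclideanGeometry.angle_comm (T (i + 1)) (T i) (T (i + 2))]
  linarith

theorem angle_pos (T : Fin 3 → EuclideanSpace ℝ (Fin 2)) (hT : AffineIndependent ℝ T) (i : Fin 3) :
    0 < Real.sin (ang T i) := by
  unfold ang Pool.Agent.Helper549.Tri.angle
  apply EuclideanGeometry.sin_pos_of_not_collinear
  have h1 : ¬ Collinear ℝ (Set.range T) := by
    rw [← affineIndependent_iff_not_collinear]
    exact hT
  have e : Set.range T = {T (i + 1), T i, T (i + 2)} := by
    apply Set.Subset.antisymm
    · rintro x ⟨y, rfl⟩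
      have : y = i + 1 ∨ y = i ∨ y = i + 2 := by revert y i; decide
      rcases this with rfl | rfl | rfl
      · exact Or.inl rfl
      · exact Or.inr (Or.inl rfl)
      · exact Or.inr (Or.inr rfl)
    · rintro x (rfl | rfl | rfl)
      · exact ⟨_, rfl⟩
      · exact ⟨_, rfl⟩
      · exact ⟨_, rfl⟩
  rw [e] at h1
  exact h1

theorem alg_rat (T : Fin 3 → EuclideanSpace ℝ (Fin 2)) (hT : AffineIndependent ℝ T)
    (h : ∀ i, ∃ q : ℚ, ang T i = q * Real.pi) : Alg (side T) := by
  have hs : ∀ i, IsAlgebraic ℤ (Real.sin (ang T i)) := by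
    intro i
    obtain ⟨q, hq⟩ := h i
    rw [hq]
    exact Real.isAlgebraic_sin_rat_mul_pi q
  have hm : ∃ m : ℝ, m ≠ 0 ∧ ∀ i, side T i = m * Real.sin (ang T i) := by
    have p0 := angle_pos T hT 0
    have p1 := angle_pos T hT 1
    have p2 := angle_pos T hT 2
    refine ⟨side T 0 / Real.sin (ang T 0), (div_pos (side_pos T hT 0) p0).ne', ?_⟩
    have l0 := law T 0
    have l2 := law T 2
    change side T 0 * Real.sin (ang T 1) = side T 1 * Real.sin (ang T 0) at l0
    change side T 2 * Real.sin (ang T 0) = side T 0 * Real.sin (ang T 2) at l2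
    intro i
    fin_cases i
    · show side T 0 = side T 0 / Real.sin (ang T 0) * Real.sin (ang T 0)
      rw [div_mul_cancel₀ _ p0.ne']
    · show side T 1 = side T 0 / Real.sin (ang T 0) * Real.sin (ang T 1)
      rw [div_mul_eq_mul_div, eq_div_iff p0.ne', l0]
    · show side T 2 = side T 0 / Real.sin (ang T 0) * Real.sin (ang T 2)
      rw [div_mul_eq_mul_div, eq_div_iff p0.ne', l2]
  obtain ⟨m, hm0, hm⟩ := hm
  intro i j
  rw [hm i, hm j, mul_div_mul_left _ _ hm0, div_eq_mul_inv]
  exact (hs i).mul (hs j).inv

theorem iso_angle (T : Fin 3 → EuclideanSpace ℝ (Fin 2)) (hT : AffineIndependent ℝ T)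
    {i j : Fin 3} (h : ang T i = ang T j) : side T i = side T j := by
  have key : ∀ i j, side T i * Real.sin (ang T j) = side T j * Real.sin (ang T i) := by
    have l0 := law T 0
    have l1 := law T 1
    have l2 := law T 2
    change side T 0 * Real.sin (ang T 1) = side T 1 * Real.sin (ang T 0) at l0
    change side T 1 * Real.sin (ang T 2) = side T 2 * Real.sin (ang T 1) at l1
    change side T 2 * Real.sin (ang T 0) = side T 0 * Real.sin (ang T 2) at l2
    intro i j
    fin_cases i <;> fin_cases j
    · rfl
    · exact l0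
    · exact l2.symm
    · exact l0.symm
    · rfl
    · exact l1
    · exact l2
    · exact l1.symm
    · rfl
  have h1 := key i j
  rw [h] at h1
  exact mul_right_cancel₀ (angle_pos T hT j).ne' h1

theorem ex_perm : ∀ i j k : Fin 3, i ≠ j → j ≠ k → i ≠ k →
    ∃ σ : Equiv.Perm (Fin 3), σ 0 = k ∧ σ 1 = j ∧ σ 2 = i := by
  decide

theorem right_cut' (T : Fin 3 → EuclideanSpace ℝ (Fin 2)) (hT : AffineIndependent ℝ T)
    (i j k : Fin 3) (hij : i ≠ j) (hjk : j ≠ k) (hik : i ≠ k) (hk : ang T k = Real.pi / 2)
    (p q : ℕ) (hp : 0 < p) (hq : 0 < q) (h : side T i * q = side T j * p) :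
    CanCut T (p ^ 2 + q ^ 2) := by
  obtain ⟨σ, s0, s1, s2⟩ := ex_perm i j k hij hjk hik
  apply Pool.Agent.V1146.SQ.Iso.cut_perm T σ
  have e : (fun k => T (σ k)) = ![T k, T j, T i] := by
    funext l
    fin_cases l
    · show T (σ 0) = T k
      rw [s0]
    · show T (σ 1) = T j
      rw [s1]
    · show T (σ 2) = T i
      rw [s2]
  rw [e]
  have hd : ∀ a b c : Fin 3, a ≠ b → b ≠ c → a ≠ c → side T a = ‖T b - T c‖ := by
    intro a b c hab hbc hac
    unfold side
    rw [← dist_eq_norm]
    have : (a + 1 = b ∧ a + 2 = c) ∨ (a + 1 = c ∧ a + 2 = b) := by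
      clear hT h hk e s0 s1 s2
      revert a b c
      decide
    rcases this with ⟨h1, h2⟩ | ⟨h1, h2⟩
    · rw [h1, h2]
    · rw [h1, h2, dist_comm]
  apply Pool.Agent.V1146.SQ.Right.right_cut (T k) (T j) (T i) p q hp hq
  · have hk' : EuclideanGeometry.angle (T j) (T k) (T i) = Real.pi / 2 := by
      rw [← hk]
      unfold ang Pool.Agent.Helper549.Tri.angle
      have : (k + 1 = j ∧ k + 2 = i) ∨ (k + 1 = i ∧ k + 2 = j) := by
        clear hT h hk e s0 s1 s2 hd
        revert i j k
        decide
      rcases this with ⟨h1, h2⟩ | ⟨h1, h2⟩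
      · rw [h1, h2]
      · rw [h1, h2, EuclideanGeometry.angle_comm]
    unfold EuclideanGeometry.angle at hk'
    exact InnerProductGeometry.inner_eq_zero_iff_angle_eq_pi_div_two _ _ |>.2 hk'
  · exact ne_of T hT hjk
  · exact ne_of T hT hik
  · rw [← hd i j k hij hjk hik, ← hd j i k hij.symm hik hjk]
    linarith

theorem right_rel (A : Fin 3 → ℝ) (i j k k0 : Fin 3) (hall : ∀ l, l = i ∨ l = j ∨ l = k)
    (hsum : A i + A j + A k = Real.pi) (hpos : ∀ l, 0 < A l) (hr : A k0 = Real.pi / 2)
    (h : A i = 2 * A j ∨ A i = Real.pi / 3 ∨ A i = A j + Real.pi / 3 ∨ A i + 2 * A j = 2 * A k) :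
    ∀ l, ∃ q : ℚ, A l = q * Real.pi := by
  have hi := hpos i
  have hj := hpos j
  have hk := hpos k
  have hpi := Real.pi_pos
  have key : (∃ q : ℚ, A i = q * Real.pi) ∧ (∃ q : ℚ, A j = q * Real.pi) ∧
      (∃ q : ℚ, A k = q * Real.pi) := by
    rcases hall k0 with rfl | rfl | rfl <;> rcases h with h | h | h | h <;>
      first
        | (exfalso; linarith)
        | (refine ⟨?_, ?_, ?_⟩ <;>
            first
              | exact ⟨1 / 2, by push_cast; linarith⟩
              | exact ⟨1 / 4, by push_cast; linarith⟩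
              | exact ⟨1 / 6, by push_cast; linarith⟩
              | exact ⟨1 / 3, by push_cast; linarith⟩
              | exact ⟨5 / 12, by push_cast; linarith⟩
              | exact ⟨1 / 12, by push_cast; linarith⟩
              | exact ⟨3 / 8, by push_cast; linarith⟩
              | exact ⟨1 / 8, by push_cast; linarith⟩)
  intro l
  rcases hall l with rfl | rfl | rfl
  · exact key.1
  · exact key.2.1
  · exact key.2.2

/-- all three angles are rational multiples of `π` -/
def RationalAngles (T : Fin 3 → EuclideanSpace ℝ (Fin 2)) : Prop :=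
  ∀ i, ∃ q : ℚ, ang T i = q * Real.pi

/-- the three sides are different -/
def Scalene (T : Fin 3 → EuclideanSpace ℝ (Fin 2)) : Prop :=
  ∀ i j, i ≠ j → side T i ≠ side T j

/-- `T` has a right angle and its legs have the ratio `p : q`, `p` and `q` positive integers, with
`p ^ 2 + q ^ 2` not a square -/
def RightBad (T : Fin 3 → EuclideanSpace ℝ (Fin 2)) : Prop :=
  ∃ i j k, i ≠ j ∧ j ≠ k ∧ i ≠ k ∧ ang T k = Real.pi / 2 ∧
    ∃ p q : ℕ, 0 < p ∧ 0 < q ∧ side T i * q = side T j * p ∧ ¬ IsSquare (p ^ 2 + q ^ 2)

/-- The triangles not settled here: all ratios of sides are algebraic, and either all angles are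
rational multiples of `π`, or there is no right angle and one of four relations holds between the
angles `a, b, c` in some order: `a = 2b`, `a = π / 3`, `a = b + π / 3` or `a + 2b = 2c`. -/
def Undecided (T : Fin 3 → EuclideanSpace ℝ (Fin 2)) : Prop :=
  (∀ i j, IsAlgebraic ℚ (side T i / side T j)) ∧
    (RationalAngles T ∨ ((∀ k, ang T k ≠ Real.pi / 2) ∧
      ∃ i j k, i ≠ j ∧ j ≠ k ∧ i ≠ k ∧
        (ang T i = 2 * ang T j ∨ ang T i = Real.pi / 3 ∨ ang T i = ang T j + Real.pi / 3 ∨
          ang T i + 2 * ang T j = 2 * ang T k)))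

theorem not_sq_iso (T : Fin 3 → EuclideanSpace ℝ (Fin 2)) (hT : AffineIndependent ℝ T)
    (hsq : SquareOnly T) : Scalene T := by
  intro a b hab heq
  have h1 := hsq 2 (by norm_num) (Pool.Agent.V1146.SQ.Iso.iso_cut T hT a b hab heq)
  obtain ⟨r, hr⟩ := h1
  rcases r with _ | _ | r
  · simp at hr
  · simp at hr
  · nlinarith

theorem ang_sum (T : Fin 3 → EuclideanSpace ℝ (Fin 2)) (hT : AffineIndependent ℝ T) :
    ang T 0 + ang T 1 + ang T 2 = Real.pi := by
  have h := EuclideanGeometry.angle_add_angle_add_angle_eq_pi (T 2) (ne_of T hT (show (1 : Fin 3) ≠ 0 by decide))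
  change EuclideanGeometry.angle (T 1) (T 0) (T 2) + EuclideanGeometry.angle (T 2) (T 1) (T 0) +
    EuclideanGeometry.angle (T 0) (T 2) (T 1) = Real.pi
  rw [EuclideanGeometry.angle_comm (T 1) (T 0) (T 2), EuclideanGeometry.angle_comm (T 2) (T 1) (T 0),
    EuclideanGeometry.angle_comm (T 0) (T 2) (T 1)]
  linarith

/-- Outside the class `Undecided`, a triangle is square-only exactly when it is scalene and not a
right triangle with legs `p : q`, `p ^ 2 + q ^ 2` not a square. In particular every scalene triangle
with a transcendental ratio of two sides is square-only. -/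
theorem result (T : Fin 3 → EuclideanSpace ℝ (Fin 2)) (hT : AffineIndependent ℝ T)
    (hund : ¬ Undecided T) : SquareOnly T ↔ Scalene T ∧ ¬ RightBad T := by
  have hAlg : Alg (side T) → ∀ i j, IsAlgebraic ℚ (side T i / side T j) := by
    intro h i j
    exact (h i j).extendScalars (RingHom.injective_int (algebraMap ℤ ℚ))
  have h3 : ¬ RationalAngles T → ∀ N : ℕ, 1 ≤ N → CanCut T N → ¬ IsSquare N →
      (∃ i j, i ≠ j ∧ side T i = side T j) ∨
      ((∀ i j, IsAlgebraic ℚ (side T i / side T j)) ∧
        ∃ i j k, i ≠ j ∧ j ≠ k ∧ i ≠ k ∧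
          ((ang T k = Real.pi / 2 ∧ ∃ p q : ℕ, p ^ 2 + q ^ 2 = N ∧ side T i * q = side T j * p) ∨
            ang T i = 2 * ang T j ∨ ang T i = Real.pi / 3 ∨ ang T i = ang T j + Real.pi / 3 ∨
            ang T i + 2 * ang T j = 2 * ang T k)) := by
    intro hra N hN1 hcut hN
    rcases Pool.Agent.V1146.SQ.Main.cut_good hT hN1 hcut hN with h | h | h
    · exact absurd h hra
    · obtain ⟨a, b, hab, h⟩ := h
      exact Or.inl ⟨a, b, hab, iso_angle T hT h⟩
    · exact Or.inr ⟨hAlg h.1, h.2⟩
  have hra : ¬ RationalAngles T := fun h => hund ⟨hAlg (alg_rat T hT h), Or.inl h⟩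
  · constructor
    · intro hsq
      refine ⟨not_sq_iso T hT hsq, ?_⟩
      rintro ⟨i, j, k, hij, hjk, hik, hk, p, q, hp, hq, h, hns⟩
      exact hns (hsq _ (by nlinarith) (right_cut' T hT i j k hij hjk hik hk p q hp hq h))
    · rintro ⟨hsc, hbad⟩ N hN1 hcut
      by_contra hN
      rcases h3 hra N hN1 hcut hN with ⟨a, b, hab, h⟩ | ⟨halg, i, j, k, hij, hjk, hik, h | h⟩
      · exact hsc a b hab h
      · obtain ⟨hk, p, q, hpq, h⟩ := h
        have si := side_pos T hT i
        have sj := side_pos T hT j
        have hp : 0 < p := by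
          rcases Nat.eq_zero_or_pos p with h0 | h0
          · exfalso
            rw [h0] at h hpq
            have hq0 : (q : ℝ) = 0 := by
              rcases mul_eq_zero.1 (by rw [h]; simp : side T i * (q : ℝ) = 0) with h1 | h1
              · exact absurd h1 si.ne'
              · exact h1
            have hq0' : q = 0 := by exact_mod_cast hq0
            rw [hq0'] at hpq
            omega
          · exact h0
        have hq : 0 < q := by
          rcases Nat.eq_zero_or_pos q with h0 | h0
          · exfalso
            rw [h0] at h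
            have hp0 : (p : ℝ) = 0 := by
              rcases mul_eq_zero.1 (by rw [← h]; simp : side T j * (p : ℝ) = 0) with h1 | h1
              · exact absurd h1 sj.ne'
              · exact h1
            have hp0' : p = 0 := by exact_mod_cast hp0
            omega
          · exact h0
        exact hbad ⟨i, j, k, hij, hjk, hik, hk, p, q, hp, hq, h, by rw [hpq]; exact hN⟩
      · have hall : ∀ l, l = i ∨ l = j ∨ l = k := by
          clear hund hra h halg h3 hAlg hbad hsc hN hcut hN1 hT
          revert i j k
          decide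
        have hpos : ∀ l, 0 < ang T l := by
          intro l
          have h0 := angle_pos T hT l
          rcases (EuclideanGeometry.angle_nonneg (T (l + 1)) (T l) (T (l + 2))).lt_or_eq with h1 | h1
          · exact h1
          · exfalso
            have : ang T l = 0 := h1.symm
            rw [this, Real.sin_zero] at h0
            exact lt_irrefl _ h0
        have hs : ang T i + ang T j + ang T k = Real.pi := by
          rw [← ang_sum T hT]
          have : (i = 0 ∧ j = 1 ∧ k = 2) ∨ (i = 0 ∧ j = 2 ∧ k = 1) ∨ (i = 1 ∧ j = 0 ∧ k = 2) ∨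
              (i = 1 ∧ j = 2 ∧ k = 0) ∨ (i = 2 ∧ j = 0 ∧ k = 1) ∨ (i = 2 ∧ j = 1 ∧ k = 0) := by
            clear hund hra h halg h3 hAlg hbad hsc hN hcut hN1 hT hall hpos
            revert i j k
            decide
          rcases this with ⟨rfl, rfl, rfl⟩ | ⟨rfl, rfl, rfl⟩ | ⟨rfl, rfl, rfl⟩ | ⟨rfl, rfl, rfl⟩ |
            ⟨rfl, rfl, rfl⟩ | ⟨rfl, rfl, rfl⟩ <;> ring
        apply hund
        refine ⟨halg, Or.inr ⟨?_, i, j, k, hij, hjk, hik, h⟩⟩
        intro k0 hk0
        exact hra (right_rel (ang T) i j k k0 hall hs hpos hk0 h)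

end Pool.Agent.Results.MP_a03157_co.ScaleneTranscendental
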